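import Pool.Agent.W827.BW.Stm

/-! Project BW: crossings of excursions are likely (`S_EXCB`, `S_REL`). -/

set_option autoImplicit false

open MeasureTheory ProbabilityTheory Filter Topology

namespace Pool.Agent.W439.BW.Rel

open Pool.Agent.W827.BW

/-- sigma-algebra generated by the coordinates in `I`. -/
@[reducible] def cs {E : Type} (I : Set E) : MeasurableSpace (E → Bool) :=
  ⨆ i ∈ I, MeasurableSpace.comap (fun ω : E → Bool => ω i) inferInstance

theorem cs_mono {E : Type} {I J : Set E} (h : I ⊆ J) : cs I ≤ cs J :=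
  biSup_mono (fun _ hi => h hi)

theorem cs_le {E : Type} (I : Set E) : cs I ≤ (MeasurableSpace.pi : MeasurableSpace (E → Bool)) :=
  iSup₂_le fun i _ => (measurable_pi_apply i).comap_le

theorem cs_coord {E : Type} {I : Set E} {e : E} (he : e ∈ I) (b : Bool) :
    MeasurableSet[cs I] {ω : E → Bool | ω e = b} := by
  have h : MeasurableSpace.comap (fun ω : E → Bool => ω e) inferInstance ≤ cs I :=
    le_iSup₂_of_le e he le_rfl
  apply h
  exact ⟨{b}, MeasurableSet.singleton b, by ext; simp⟩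

instance (E : Type) (p : unitInterval) : IsProbabilityMeasure (siteMeasure E p) := by
  unfold siteMeasure; infer_instance

theorem iIndep_coord (E : Type) (p : unitInterval) :
    iIndep (fun i : E => MeasurableSpace.comap (fun ω : E → Bool => ω i) inferInstance)
      (siteMeasure E p) := by
  have := iIndepFun_infinitePi (ι := E) (Ω := fun _ => Bool)
    (P := fun _ => bernoulliMeasure true false p) (X := fun _ b => b) (by fun_prop)
  exact this

theorem indep_cs {E : Type} (p : unitInterval) {I J : Set E} (h : Disjoint I J) :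
    Indep (cs I) (cs J) (siteMeasure E p) :=
  indep_iSup_of_disjoint (fun i => (measurable_pi_apply i).comap_le) (iIndep_coord E p) h

theorem real_inter {E : Type} (p : unitInterval) {I J : Set E} (h : Disjoint I J)
    {A B : Set (E → Bool)} (hA : MeasurableSet[cs I] A) (hB : MeasurableSet[cs J] B) :
    (siteMeasure E p).real (A ∩ B) = (siteMeasure E p).real A * (siteMeasure E p).real B := by
  have := (Indep_iff _ _ _).1 (indep_cs p h) _ _ hA hB
  rw [measureReal_def, this, ENNReal.toReal_mul, ← measureReal_def, ← measureReal_def]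

theorem real_coord {E : Type} (p : unitInterval) (e : E) :
    (siteMeasure E p).real {ω | ω e = false} = 1 - p := by
  have h : {ω : E → Bool | ω e = false} =
      Set.pi (({e} : Finset E) : Set E) (fun _ => {false}) := by
    ext ω
    simp
  rw [h, measureReal_def, siteMeasure,
    Measure.infinitePi_pi _ (fun _ _ => MeasurableSet.singleton _), Finset.prod_const,
    ENNReal.toReal_pow, ← measureReal_def, Finset.card_singleton, pow_one]
  rw [bernoulliMeasure_real_apply_of_notMem_of_mem] <;> simp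

/-- at least one of `n` independent events -/
theorem union_large (p : unitInterval) {E : Type} (x : ℝ) (hx1 : x ≤ 1)
    (Ev : ℕ → Set (E → Bool)) (J : ℕ → Set E) (hJ : ∀ r s, r ≠ s → Disjoint (J r) (J s))
    (hE : ∀ r, MeasurableSet[cs (J r)] (Ev r)) (hx : ∀ r, x ≤ (siteMeasure E p).real (Ev r))
    (n : ℕ) : MeasurableSet[cs (⋃ r ∈ Finset.range n, J r)] (⋂ r ∈ Finset.range n, (Ev r)ᶜ) ∧
      (siteMeasure E p).real (⋂ r ∈ Finset.range n, (Ev r)ᶜ) ≤ (1 - x) ^ n := by
  induction n with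
  | zero => simp
  | succ n ih =>
    obtain ⟨ih1, ih2⟩ := ih
    have e1 : (⋂ r ∈ Finset.range (n + 1), (Ev r)ᶜ) =
        (⋂ r ∈ Finset.range n, (Ev r)ᶜ) ∩ (Ev n)ᶜ := by
      rw [Finset.range_add_one, Finset.set_biInter_insert, Set.inter_comm]
    have e2 : (⋃ r ∈ Finset.range (n + 1), J r) = (⋃ r ∈ Finset.range n, J r) ∪ J n := by
      rw [Finset.range_add_one, Finset.set_biUnion_insert, Set.union_comm]
    have hd : Disjoint (⋃ r ∈ Finset.range n, J r) (J n) := by
      rw [Set.disjoint_iUnion₂_left]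
      intro r hr
      exact hJ r n (by have := Finset.mem_range.1 hr; omega)
    have hn : MeasurableSet[cs (J n)] (Ev n)ᶜ := (hE n).compl
    refine ⟨?_, ?_⟩
    · rw [e1, e2]
      exact MeasurableSet.inter (cs_mono Set.subset_union_left _ ih1)
        (cs_mono Set.subset_union_right _ hn)
    · rw [e1, real_inter p hd ih1 hn, pow_succ]
      have h1 : (siteMeasure E p).real (Ev n)ᶜ ≤ 1 - x := by
        rw [probReal_compl_eq_one_sub (cs_le _ _ (hE n))]
        linarith [hx n]
      exact mul_le_mul ih2 h1 measureReal_nonneg (pow_nonneg (by linarith) _)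

theorem union_half (p : unitInterval) {E : Type} (x : ℝ) (hx1 : x ≤ 1)
    (Ev : ℕ → Set (E → Bool)) (J : ℕ → Set E) (hJ : ∀ r s, r ≠ s → Disjoint (J r) (J s))
    (hE : ∀ r, MeasurableSet[cs (J r)] (Ev r)) (hx : ∀ r, x ≤ (siteMeasure E p).real (Ev r))
    (n : ℕ) (hn : (1 - x) ^ n ≤ 1 / 2) :
    MeasurableSet[cs (⋃ r ∈ Finset.range n, J r)] (⋃ r ∈ Finset.range n, Ev r) ∧
      1 / 2 ≤ (siteMeasure E p).real (⋃ r ∈ Finset.range n, Ev r) := by
  obtain ⟨h1, h2⟩ := union_large p x hx1 Ev J hJ hE hx n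
  have e1 : (⋃ r ∈ Finset.range n, Ev r) = (⋂ r ∈ Finset.range n, (Ev r)ᶜ)ᶜ := by
    simp only [Set.compl_iInter, compl_compl]
  rw [e1]
  refine ⟨h1.compl, ?_⟩
  rw [probReal_compl_eq_one_sub (cs_le _ _ h1)]
  linarith

theorem t_EXCB : S_EXCB := by
  intro w a b h
  induction h with
  | single a h1 h2 =>
    refine ⟨by omega, h2.symm, fun t h3 h4 => ?_⟩
    have : t = a + 1 := by omega
    rw [this, h1]
    omega
  | quad a b c d h0 _ _ _ h4 ih1 ih2 ih3 =>
    obtain ⟨a1, a2, a3⟩ := ih1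
    obtain ⟨b1, b2, b3⟩ := ih2
    obtain ⟨c1, c2, c3⟩ := ih3
    refine ⟨by omega, h4.symm, fun t h5 h6 => ?_⟩
    rcases lt_trichotomy t (a + 1) with h | h | h
    · omega
    · rw [h, h0]
      omega
    rcases lt_trichotomy t b with h' | h' | h'
    · have := a3 t h h'
      omega
    · rw [h', ← a2]
      omega
    rcases lt_trichotomy t c with h'' | h'' | h''
    · have := b3 t h' h''
      omega
    · rw [h'', ← b2, ← a2]
      omega
    rcases lt_trichotomy t (d - 1) with h3 | h3 | h3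
    · have := c3 t h'' h3
      omega
    · rw [h3, ← c2, ← b2, ← a2]
      omega
    · omega

/-- the bricks below the brick `k` of level `w a`, between the rows `a` and `b` -/
def I (D : ℤ) (w : ℤ → ℤ) (l a b k : ℤ) : Set (ℤ × ℤ) :=
  {v | a < v.1 ∧ v.1 < b ∧ v.2 / D ^ (w v.1 - l).toNat = k}

theorem glue {D : ℤ} {w : ℤ → ℤ} {a b c d j k : ℤ} (h0 : w (a + 1) = w a + 1)
    (hab : a + 1 < b) (hbc : b < c) (hcd : c < d - 1) (hw : w d = w (d - 1) - 1)
    (hj : j / D = k) {ω : ℤ × ℤ → Bool} (w1 : ω (a + 1, j) = false) (w2 : ω (b, j) = false)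
    (w3 : ω (c, j) = false) (w4 : ω (d - 1, j) = false) (c1 : ω ∈ Cross D w (a + 1) b j)
    (c2 : ω ∈ Cross D w b c j) (c3 : ω ∈ Cross D w c (d - 1) j) : ω ∈ Cross D w a d k := by
  obtain ⟨β1, s1, e1, n1, f1⟩ := c1
  obtain ⟨β2, s2, e2, n2, f2⟩ := c2
  obtain ⟨β3, s3, e3, n3, f3⟩ := c3
  set β : ℤ → ℤ := fun t => if t ≤ a then k else if t ≤ b then β1 t else if t ≤ c then β2 t
    else if t ≤ d - 1 then β3 t else k with hβ
  have v0 : β a = k := by simp [hβ]
  have v1 : ∀ t, a < t → t ≤ b → β t = β1 t := by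
    intro t h1 h2
    simp only [hβ]
    rw [if_neg (by omega), if_pos h2]
  have v2 : ∀ t, b ≤ t → t ≤ c → β t = β2 t := by
    intro t h1 h2
    rcases eq_or_lt_of_le h1 with rfl | h1
    · rw [v1 b (by omega) le_rfl, e1, s2]
    · simp only [hβ]
      rw [if_neg (by omega), if_neg (by omega), if_pos h2]
  have v3 : ∀ t, c ≤ t → t ≤ d - 1 → β t = β3 t := by
    intro t h1 h2
    rcases eq_or_lt_of_le h1 with rfl | h1
    · rw [v2 c (by omega) le_rfl, e2, s3]
    · simp only [hβ]
      rw [if_neg (by omega), if_neg (by omega), if_neg (by omega), if_pos h2]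
  have v4 : β d = k := by
    simp only [hβ]
    rw [if_neg (by omega), if_neg (by omega), if_neg (by omega), if_neg (by omega)]
  refine ⟨β, v0, v4, fun t h1 h2 => ?_, fun t h1 h2 => ?_⟩
  · rcases eq_or_lt_of_le h1 with rfl | h1
    · rw [v0, v1 (a + 1) (by omega) (by omega), s1]
      exact Or.inl ⟨h0, hj⟩
    rcases lt_or_ge t b with h3 | h3
    · rw [v1 t h1 h3.le, v1 (t + 1) (by omega) (by omega)]
      exact n1 t (by omega) h3
    rcases lt_or_ge t c with h4 | h4
    · rw [v2 t h3 h4.le, v2 (t + 1) (by omega) (by omega)]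
      exact n2 t h3 h4
    rcases lt_or_ge t (d - 1) with h5 | h5
    · rw [v3 t h4 h5.le, v3 (t + 1) (by omega) (by omega)]
      exact n3 t h4 h5
    · have h6 : t = d - 1 := by omega
      have h7 : t + 1 = d := by omega
      rw [h7, v4, h6, v3 (d - 1) (by omega) le_rfl, e3]
      refine Or.inr ⟨?_, hj⟩
      rw [sub_add_cancel, hw]
  · rcases lt_or_ge t b with h3 | h3
    · rw [v1 t h1 h3.le]
      rcases eq_or_lt_of_le (show a + 1 ≤ t by omega) with rfl | h4
      · rw [s1]
        exact w1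
      · exact f1 t h4 h3
    rcases lt_or_ge t c with h4 | h4
    · rw [v2 t h3 h4.le]
      rcases eq_or_lt_of_le h3 with rfl | h5
      · rw [s2]
        exact w2
      · exact f2 t h5 h4
    · rw [v3 t h4 (by omega)]
      rcases eq_or_lt_of_le h4 with rfl | h5
      · rw [s3]
        exact w3
      rcases eq_or_lt_of_le (show t ≤ d - 1 by omega) with rfl | h6
      · rw [e3]
        exact w4
      · exact f3 t h5 h6

theorem step (p : unitInterval) {s s' : ℤ} (hs : s ≤ s') {A B : Set (ℤ × ℤ → Bool)}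
    (hA : MeasurableSet[cs {v : ℤ × ℤ | v.1 ≤ s}] A) {J : Set (ℤ × ℤ)}
    (hJ : ∀ v ∈ J, s < v.1 ∧ v.1 ≤ s') (hB : MeasurableSet[cs J] B) :
    MeasurableSet[cs {v : ℤ × ℤ | v.1 ≤ s'}] (A ∩ B) ∧
      (siteMeasure (ℤ × ℤ) p).real (A ∩ B) =
        (siteMeasure (ℤ × ℤ) p).real A * (siteMeasure (ℤ × ℤ) p).real B := by
  refine ⟨MeasurableSet.inter (cs_mono (fun v hv => le_trans hv hs) _ hA)
    (cs_mono (fun v hv => (hJ v hv).2) _ hB), real_inter p ?_ hA hB⟩
  rw [Set.disjoint_left]
  intro v h1 h2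
  have := (hJ v h2).1
  have h3 : v.1 ≤ s := h1
  omega

theorem key (D : ℕ) (w : ℤ → ℤ) (p : unitInterval) (hD : 2 ≤ D)
    (hp : (1 - (1 - (p : ℝ)) ^ 4 / 8) ^ D ≤ 1 / 2) (a b : ℤ) (hab : Exc w a b) :
    ∀ k : ℤ, ∃ C : Set (ℤ × ℤ → Bool), C ⊆ Cross D w a b k ∧
      MeasurableSet[cs (I D w (w a) a b k)] C ∧ 1 / 2 ≤ (siteMeasure (ℤ × ℤ) p).real C := by
  have hD0 : (0 : ℤ) < D := by exact_mod_cast (by omega : 0 < D)
  have q0 : 0 ≤ 1 - (p : ℝ) := by linarith [p.2.2]
  have q1 : 1 - (p : ℝ) ≤ 1 := by linarith [p.2.1]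
  have q4 : (1 - (p : ℝ)) ^ 4 ≤ 1 := pow_le_one₀ q0 q1
  have hdiv : ∀ k : ℤ, ∀ r ∈ Finset.range D, (k * D + (r : ℤ)) / (D : ℤ) = k := by
    intro k r hr
    have h1 : (r : ℤ) < D := by exact_mod_cast Finset.mem_range.1 hr
    rw [add_comm, Int.add_mul_ediv_right _ _ hD0.ne', Int.ediv_eq_zero_of_lt (by omega) h1,
      zero_add]
  induction hab with
  | single a h1 h2 =>
    intro k
    have hx : ∀ r : ℕ, (1 - (p : ℝ)) ^ 4 / 8 ≤ (siteMeasure (ℤ × ℤ) p).real
        {ω : ℤ × ℤ → Bool | ω (a + 1, k * D + (r : ℤ)) = false} := by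
      intro r
      rw [real_coord]
      have : (1 - (p : ℝ)) ^ 4 ≤ (1 - (p : ℝ)) ^ 1 := pow_le_pow_of_le_one q0 q1 (by norm_num)
      rw [pow_one] at this
      linarith
    obtain ⟨m1, m2⟩ := union_half p ((1 - (p : ℝ)) ^ 4 / 8) (by linarith)
      (fun r : ℕ => {ω : ℤ × ℤ → Bool | ω (a + 1, k * D + (r : ℤ)) = false})
      (fun r : ℕ => {(a + 1, k * D + (r : ℤ))})
      (fun r s hrs => by
        rw [Set.disjoint_singleton]
        intro h
        have := congrArg Prod.snd h
        simp only [add_right_inj, Nat.cast_inj] at this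
        exact hrs this)
      (fun r => cs_coord (Set.mem_singleton _) false) hx D hp
    refine ⟨_, ?_, cs_mono ?_ _ m1, m2⟩
    · intro ω hω
      simp only [Set.mem_iUnion] at hω
      obtain ⟨r, hr, hω⟩ := hω
      refine ⟨fun t => if t = a + 1 then k * D + (r : ℤ) else k, ?_, ?_, fun t h3 h4 => ?_,
        fun t h3 h4 => ?_⟩
      · exact if_neg (by omega)
      · exact if_neg (by omega)
      · rcases eq_or_lt_of_le h3 with rfl | h3
        · simp only [if_neg (show ¬ a = a + 1 by omega), if_true]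
          exact Or.inl ⟨h1, hdiv k r hr⟩
        · have h5 : t = a + 1 := by omega
          subst h5
          simp only [if_neg (show ¬ a + 1 + 1 = a + 1 by omega), if_true]
          refine Or.inr ⟨?_, hdiv k r hr⟩
          rw [show a + 1 + 1 = a + 2 by ring, h2, h1]
          ring
      · have h5 : t = a + 1 := by omega
        subst h5
        simp only [if_true]
        exact hω
    · intro v hv
      simp only [Set.mem_iUnion] at hv
      obtain ⟨r, hr, hv⟩ := hv
      rw [Set.mem_singleton_iff] at hv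
      subst hv
      refine ⟨by simp, by simp, ?_⟩
      simp only [h1]
      rw [show (w a + 1 - w a).toNat = 1 by simp, pow_one]
      exact hdiv k r hr
  | quad a b c d h0 e1 e2 e3 h4 ih1 ih2 ih3 =>
    intro k
    obtain ⟨a1, a2, a3⟩ := t_EXCB _ _ _ e1
    obtain ⟨b1, b2, b3⟩ := t_EXCB _ _ _ e2
    obtain ⟨c1, c2, c3⟩ := t_EXCB _ _ _ e3
    obtain ⟨-, -, d3⟩ := t_EXCB _ _ _ (Exc.quad a b c d h0 e1 e2 e3 h4)
    choose C1 u1 m1 p1 using ih1
    choose C2 u2 m2 p2 using ih2
    choose C3 u3 m3 p3 using ih3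
    have wb : w b = w a + 1 := by rw [← a2, h0]
    have wc : w c = w a + 1 := by rw [← b2, wb]
    have wd : w (d - 1) = w a + 1 := by rw [← c2, wc]
    rw [h0] at m1
    rw [wb] at m2
    rw [wc] at m3
    -- the coordinates of the child `j`
    set J : ℤ → Set (ℤ × ℤ) := fun j => I D w (w a + 1) a d j with hJ
    set F : ℤ → ℤ → Set (ℤ × ℤ → Bool) := fun t j => {ω | ω (t, j) = false} with hF
    set G : ℤ → Set (ℤ × ℤ → Bool) := fun j =>
      F (a + 1) j ∩ C1 j ∩ F b j ∩ C2 j ∩ F c j ∩ C3 j ∩ F (d - 1) j with hG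
    have pt : ∀ t j, a < t → t < d → w t = w a + 1 → (t, j) ∈ J j := by
      intro t j h1 h2 h3
      refine ⟨h1, h2, ?_⟩
      simp [h3]
    have Fm : ∀ t j, a < t → t < d → w t = w a + 1 → MeasurableSet[cs (J j)] (F t j) :=
      fun t j h1 h2 h3 => cs_coord (pt t j h1 h2 h3) false
    have sub : ∀ s t j, a ≤ s → t ≤ d → I D w (w a + 1) s t j ⊆ J j :=
      fun s t j h1 h2 v hv => ⟨by have := hv.1; omega, by have := hv.2.1; omega, hv.2.2⟩
    have Gm : ∀ j, MeasurableSet[cs (J j)] (G j) := by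
      intro j
      refine MeasurableSet.inter (MeasurableSet.inter (MeasurableSet.inter (MeasurableSet.inter
        (MeasurableSet.inter (MeasurableSet.inter ?_ ?_) ?_) ?_) ?_) ?_) ?_
      · exact Fm (a + 1) j (by omega) (by omega) h0
      · exact cs_mono (sub _ _ _ (by omega) (by omega)) _ (m1 j)
      · exact Fm b j (by omega) (by omega) wb
      · exact cs_mono (sub _ _ _ (by omega) (by omega)) _ (m2 j)
      · exact Fm c j (by omega) (by omega) wc
      · exact cs_mono (sub _ _ _ (by omega) (by omega)) _ (m3 j)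
      · exact Fm (d - 1) j (by omega) (by omega) wd
    have sing : ∀ t j, MeasurableSet[cs ({(t, j)} : Set (ℤ × ℤ))] (F t j) :=
      fun t j => cs_coord (Set.mem_singleton _) false
    have Gp : ∀ j, (1 - (p : ℝ)) ^ 4 / 8 ≤ (siteMeasure (ℤ × ℤ) p).real (G j) := by
      intro j
      have g1 : MeasurableSet[cs {v : ℤ × ℤ | v.1 ≤ a + 1}] (F (a + 1) j) :=
        cs_coord (by simp) false
      have g2 := step p (s := a + 1) (s' := b - 1) (by omega) g1
        (fun v hv => ⟨hv.1, by have := hv.2.1; omega⟩) (m1 j)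
      have g3 := step p (s := b - 1) (s' := b) (by omega) g2.1 (J := {(b, j)})
        (fun v hv => by rw [Set.mem_singleton_iff] at hv; subst hv; simp) (sing b j)
      have g4 := step p (s := b) (s' := c - 1) (by omega) g3.1
        (fun v hv => ⟨hv.1, by have := hv.2.1; omega⟩) (m2 j)
      have g5 := step p (s := c - 1) (s' := c) (by omega) g4.1 (J := {(c, j)})
        (fun v hv => by rw [Set.mem_singleton_iff] at hv; subst hv; simp) (sing c j)
      have g6 := step p (s := c) (s' := d - 2) (by omega) g5.1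
        (fun v hv => ⟨hv.1, by have := hv.2.1; omega⟩) (m3 j)
      have g7 := step p (s := d - 2) (s' := d - 1) (by omega) g6.1 (J := {(d - 1, j)})
        (fun v hv => by rw [Set.mem_singleton_iff] at hv; subst hv; simp) (sing (d - 1) j)
      have hf : ∀ t, (siteMeasure (ℤ × ℤ) p).real (F t j) = 1 - p := fun t => real_coord p _
      simp only [hG]
      rw [g7.2, g6.2, g5.2, g4.2, g3.2, g2.2, hf, hf, hf, hf]
      have x1 := p1 j
      have x2 := p2 j
      have x3 := p3 j
      have y12 : 1 / 4 ≤ (siteMeasure (ℤ × ℤ) p).real (C1 j) *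
          (siteMeasure (ℤ × ℤ) p).real (C2 j) := by nlinarith
      have y123 : 1 / 8 ≤ (siteMeasure (ℤ × ℤ) p).real (C1 j) *
          (siteMeasure (ℤ × ℤ) p).real (C2 j) * (siteMeasure (ℤ × ℤ) p).real (C3 j) := by
        nlinarith
      calc (1 - (p : ℝ)) ^ 4 / 8 = (1 - (p : ℝ)) ^ 4 * (1 / 8) := by ring
        _ ≤ (1 - (p : ℝ)) ^ 4 * ((siteMeasure (ℤ × ℤ) p).real (C1 j) *
          (siteMeasure (ℤ × ℤ) p).real (C2 j) * (siteMeasure (ℤ × ℤ) p).real (C3 j)) :=
            mul_le_mul_of_nonneg_left y123 (by positivity)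
        _ = _ := by ring
    obtain ⟨z1, z2⟩ := union_half p ((1 - (p : ℝ)) ^ 4 / 8) (by linarith)
      (fun r : ℕ => G (k * D + (r : ℤ))) (fun r : ℕ => J (k * D + (r : ℤ)))
      (fun r s hrs => by
        rw [Set.disjoint_left]
        intro v hv1 hv2
        have h5 := hv1.2.2
        have h6 := hv2.2.2
        rw [h5] at h6
        simp only [add_right_inj, Nat.cast_inj] at h6
        exact hrs h6)
      (fun r => Gm _) (fun r => Gp _) D hp
    refine ⟨_, ?_, cs_mono ?_ _ z1, z2⟩
    · intro ω hω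
      simp only [Set.mem_iUnion] at hω
      obtain ⟨r, hr, ⟨⟨⟨⟨⟨⟨w1, x1⟩, w2⟩, x2⟩, w3⟩, x3⟩, w4⟩⟩ := hω
      exact glue h0 a1 b1 c1 (by rw [h4, wd]; ring) (hdiv k r hr) w1 w2 w3 w4 (u1 _ x1)
        (u2 _ x2) (u3 _ x3)
    · intro v hv
      simp only [Set.mem_iUnion] at hv
      obtain ⟨r, hr, hv1, hv2, hv3⟩ := hv
      refine ⟨hv1, hv2, ?_⟩
      have h5 := d3 v.1 hv1 hv2
      have h6 : (w v.1 - w a).toNat = (w v.1 - (w a + 1)).toNat + 1 := by omega
      rw [h6, pow_succ, ← Int.ediv_ediv_of_nonneg (by positivity), hv3]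
      exact hdiv k r hr

theorem t_REL : S_REL := by
  intro D w p hD hp a b hab k
  obtain ⟨C, h1, -, h3⟩ := key D w p hD hp a b hab k
  exact h3.trans (measureReal_mono h1)

end Pool.Agent.W439.BW.Rel
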